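import Pool.Agent.Q200.DB.Main

/-!
# Dubrovin's conjecture (first part) and the geometry of Fano manifolds: definitions
-/

universe u

namespace Pool.Agent.Q8.DU

open Pool.Agent.Q200.DB

/-- The smooth projective complex varieties with their big quantum cohomology (`QHData`) and some more
geometric notions. -/
structure FanoData extends QHData.{u} where
  /-- no odd cohomology, and `h^{p,q} = 0` for `p ≠ q` -/
  Tate : Var → Prop
  /-- `Bundle X Z r`: `Z` is the projectivization of a vector bundle of rank `r` on `X` -/
  Bundle : Var → Var → ℕ → Prop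
  /-- the smooth quadric of dimension `n` -/
  Q : ℕ → Var
  /-- `Hyper Y d m`: `Y` is a smooth hypersurface of degree `d` in the projective space of dimension
  `m + 1` -/
  Hyper : Var → ℕ → ℕ → Prop
  /-- the Picard number -/
  rho : Var → ℕ
  /-- the Lefschetz defect of a Fano manifold `X`: the maximum over all prime divisors `D` of the
  codimension of the space of the numerical classes of the curves in `D` in that of the curves
  in `X` -/
  defect : Var → ℕ
  /-- the variety contains a prime divisor of Picard number one -/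
  PrimeOne : Var → Prop

namespace FanoData

variable (T : FanoData.{u})

/-- Known facts, besides those in `QHData.Facts`.
* `ss_tate`: Hertling, Manin, Teleman. `fec_tate`: Hochschild homology.
* `tate_odd`, `tate_pg`, `tate_blow`, `bundle_tate`, `prod_tate`: Hodge numbers of blow-ups, bundles
  and products.
* `bundle_types`: Iritani, Koto: the quantum cohomology of a projective bundle of rank `r` over `X`
  decomposes, at the generic point, into `r` copies of that of `X`. `bundle_fec`: Orlov.
* `fec_proj`, `quadric_ss`, `quadric_fec`: Beilinson; quadrics (Kapranov).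
* `delpezzo`: a Fano surface is rational.
* `hyper`: a smooth hypersurface of dimension `m ≥ 1` without odd cohomology and with `h^{p,q} = 0`
  for `p ≠ q` is a projective space, a quadric or a cubic surface (Griffiths).
* `point_blow`: Bonavero, Campana, Wiśniewski: if the blow-up `X` of `Y` in a point is a Fano manifold
  of dimension `n ≥ 3` then `Y` is the projective space, the quadric or the blow-up of the projective
  space along a subvariety of codimension two which is contained in a hyperplane.
* `defect_four`: Casagrande: a Fano manifold of Lefschetz defect at least four is the product of a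
  Fano surface and a Fano manifold. `defect_three`: Casagrande, Romano, Secci: a Fano manifold `X` of
  Lefschetz defect three is the blow-up of a bundle of projective planes over a Fano manifold `W`
  along three disjoint submanifolds of codimension two, which are isomorphic to `W` or to a double
  cover of `W` which is again a Fano manifold.
* `prime_one`: Casagrande, Druel: a Fano fourfold of Picard number at least three with a prime divisor
  of Picard number one is the blow-up of a projective line bundle over a Fano threefold `Y` of Picard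
  number one along a surface `A` which is isomorphic to a smooth surface in `Y`; by adjunction `A` is
  a Fano surface or `p_g(A) > 0`. -/
structure FanoFacts : Prop extends T.toQHData.Facts where
  ss_tate : ∀ X : T.Var, T.Semisimple X → T.Tate X
  fec_tate : ∀ X : T.Var, T.FEC X → T.Tate X
  tate_odd : ∀ X : T.Var, T.Tate X → T.odd X = 0
  tate_pg : ∀ S : T.Var, T.dim S = 2 → T.Tate S → T.pg S = 0
  tate_blow : ∀ {Z X X' : T.Var} {r : ℕ}, T.Blow Z X X' r → (T.Tate X' ↔ T.Tate X ∧ T.Tate Z)
  prod_tate : ∀ {X Y : T.Var}, T.Tate (T.prod X Y) → T.Tate X ∧ T.Tate Y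
  bundle_tate : ∀ {X Z : T.Var} {r : ℕ}, T.Bundle X Z r → (T.Tate Z ↔ T.Tate X)
  bundle_types : ∀ {X Z : T.Var} {r : ℕ}, T.Bundle X Z r → T.types Z = r • T.types X
  bundle_fec : ∀ {X Z : T.Var} {r : ℕ}, T.Bundle X Z r → T.FEC X → T.FEC Z
  fec_proj : ∀ n, T.FEC (T.P n)
  quadric_ss : ∀ n, T.Semisimple (T.Q n)
  quadric_fec : ∀ n, T.FEC (T.Q n)
  delpezzo : ∀ S : T.Var, T.Fano S → T.dim S = 2 → T.Rational S
  hyper : ∀ {Y : T.Var} {d m : ℕ}, T.Hyper Y d m → 1 ≤ m → T.Tate Y →
    Y = T.P m ∨ Y = T.Q m ∨ (T.dim Y = 2 ∧ T.Rational Y)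
  point_blow : ∀ {Z X Y : T.Var}, T.Fano X → 3 ≤ T.dim X → T.dim Z = 0 →
    T.Blow Z Y X (T.dim X) → Y = T.P (T.dim X) ∨ Y = T.Q (T.dim X) ∨
      ∃ (A : T.Var) (d : ℕ), T.Hyper A d (T.dim X - 2) ∧ T.Blow A (T.P (T.dim X)) Y 2
  defect_four : ∀ X : T.Var, T.Fano X → 4 ≤ T.defect X → ∃ S W : T.Var, X = T.prod S W ∧
    T.Fano S ∧ T.dim S = 2 ∧ T.Fano W ∧ T.dim W + 2 = T.dim X
  defect_three : ∀ X : T.Var, T.Fano X → T.defect X = 3 → ∃ W Z S₁ S₂ S₃ X₁ X₂ : T.Var,
    T.Fano W ∧ T.dim W + 2 = T.dim X ∧ T.Bundle W Z 3 ∧
    T.Blow S₁ Z X₁ 2 ∧ T.Blow S₂ X₁ X₂ 2 ∧ T.Blow S₃ X₂ X 2 ∧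
    ∀ S ∈ ({S₁, S₂, S₃} : Set T.Var), T.Fano S ∧ T.dim S = T.dim W
  prime_one : ∀ X : T.Var, T.Fano X → T.dim X = 4 → T.PrimeOne X → 3 ≤ T.rho X →
    ∃ Y Z A : T.Var, T.Fano Y ∧ T.dim Y = 3 ∧ T.Bundle Y Z 2 ∧ T.Blow A Z X 2 ∧ T.dim A = 2 ∧
      (T.Fano A ∨ 0 < T.pg A)

/-- The first part of Dubrovin's conjecture for `X`: the big quantum cohomology is semisimple if and
only if there is a full exceptional collection; moreover both are equivalent to: `X` has no odd
cohomology and `h^{p,q} = 0` for `p ≠ q`. -/
def Dubrovin (X : T.Var) : Prop := (T.Semisimple X ↔ T.FEC X) ∧ (T.Semisimple X ↔ T.Tate X)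

/-- The smallest class of varieties which contains all Fano manifolds of dimension at most three, the
projective spaces, the quadrics, all curves, all surfaces which are rational or have `p_g ≠ 0` or
`b_1 ≠ 0`, and which is closed under products, projective bundles and blow-ups of members along
members. -/
inductive Generated : T.Var → Prop
  | fano (X : T.Var) (h : T.Fano X) (hd : T.dim X ≤ 3) : Generated X
  | proj (n : ℕ) : Generated (T.P n)
  | quadric (n : ℕ) : Generated (T.Q n)
  | curve (C : T.Var) (h : T.dim C = 1) : Generated C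
  | surface (S : T.Var) (h : T.dim S = 2) (h' : T.Rational S ∨ T.pg S ≠ 0 ∨ T.odd S ≠ 0) :
      Generated S
  | prod (X Y : T.Var) (hX : Generated X) (hY : Generated Y) : Generated (T.prod X Y)
  | bundle (X Z : T.Var) (r : ℕ) (h : T.Bundle X Z r) (hX : Generated X) : Generated Z
  | blow (Z X X' : T.Var) (r : ℕ) (h : T.Blow Z X X' r) (hX : Generated X) (hZ : Generated Z) :
      Generated X'

end FanoData

end Pool.Agent.Q8.DU
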