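import Pool.Agent.Q8.DU.Defs

/-!
# Dubrovin's conjecture (first part) and the geometry of Fano manifolds: proofs
-/

universe u

namespace Pool.Agent.Q8.DU

open Pool.Agent.Q200.DB

namespace FanoData

variable {T : FanoData.{u}}

lemma dubrovin_of (hT : T.FanoFacts) {X : T.Var} (h : T.Tate X → T.Semisimple X ∧ T.FEC X) :
    T.Dubrovin X :=
  ⟨⟨fun a => (h (hT.ss_tate X a)).2, fun a => (h (hT.fec_tate X a)).1⟩,
    ⟨hT.ss_tate X, fun a => (h a).1⟩⟩

lemma Dubrovin.both {X : T.Var} (h : T.Dubrovin X) (h' : T.Tate X) :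
    T.Semisimple X ∧ T.FEC X := ⟨h.2.2 h', h.1.1 (h.2.2 h')⟩

theorem dubrovin_blow (hT : T.FanoFacts) {Z X X' : T.Var} {r : ℕ} (h : T.Blow Z X X' r)
    (hX : T.Dubrovin X) (hZ : T.Dubrovin Z) : T.Dubrovin X' := by
  refine dubrovin_of hT fun h' => ?_
  obtain ⟨a, b⟩ := (hT.tate_blow h).1 h'
  obtain ⟨a1, a2⟩ := hX.both a
  obtain ⟨b1, b2⟩ := hZ.both b
  refine ⟨fun x hx => ?_, hT.fec_blow h a2 b2⟩
  rw [hT.blow h, Multiset.mem_add] at hx
  rcases hx with hx | hx
  · exact a1 x hx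
  · exact b1 x (Multiset.mem_of_mem_nsmul hx)

theorem dubrovin_prod (hT : T.FanoFacts) {X Y : T.Var} (hX : T.Dubrovin X) (hY : T.Dubrovin Y) :
    T.Dubrovin (T.prod X Y) := by
  refine dubrovin_of hT fun h' => ?_
  obtain ⟨a, b⟩ := hT.prod_tate h'
  exact ⟨hT.prod_ss _ _ (hX.both a).1 (hY.both b).1, hT.prod_fec _ _ (hX.both a).2 (hY.both b).2⟩

theorem dubrovin_bundle (hT : T.FanoFacts) {X Z : T.Var} {r : ℕ} (h : T.Bundle X Z r)
    (hX : T.Dubrovin X) : T.Dubrovin Z := by
  refine dubrovin_of hT fun h' => ?_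
  obtain ⟨a, b⟩ := hX.both ((hT.bundle_tate h).1 h')
  refine ⟨fun x hx => ?_, hT.bundle_fec h b⟩
  rw [hT.bundle_types h] at hx
  exact a x (Multiset.mem_of_mem_nsmul hx)

theorem dubrovin_point (hT : T.FanoFacts) {X : T.Var} (h : T.dim X = 0) : T.Dubrovin X := by
  refine dubrovin_of hT fun _ => ⟨fun x hx => ?_, hT.fec_point X h⟩
  rw [hT.point X h, Multiset.mem_singleton] at hx
  exact hx

theorem dubrovin_curve (hT : T.FanoFacts) {X : T.Var} (h : T.dim X = 1) : T.Dubrovin X := by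
  refine dubrovin_of hT fun h' => ?_
  have h0 := hT.tate_odd X h'
  refine ⟨fun x hx => ?_, hT.fec_curve X h h0⟩
  have h1 := QHData.snd_zero_of_odd hT.toFacts h0 hx
  rcases hT.curve X h with h2 | ⟨g, hg, h2⟩
  · rw [h2] at hx
    simpa using hx
  · rw [h2, Multiset.mem_singleton] at hx
    rw [hx] at h1
    simp only at h1
    omega

theorem dubrovin_rational_surface (hT : T.FanoFacts) {S : T.Var} (h : T.dim S = 2)
    (hr : T.Rational S) : T.Dubrovin S :=
  dubrovin_of hT fun _ => ⟨QHData.rational_surface hT.toFacts h hr, hT.fec_surface S h hr⟩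

theorem dubrovin_surface (hT : T.FanoFacts) {S : T.Var} (h : T.dim S = 2)
    (hr : T.Rational S ∨ T.pg S ≠ 0 ∨ T.odd S ≠ 0) : T.Dubrovin S := by
  rcases hr with hr | hr | hr
  · exact dubrovin_rational_surface hT h hr
  · exact dubrovin_of hT fun h' => absurd (hT.tate_pg S h h') hr
  · exact dubrovin_of hT fun h' => absurd (hT.tate_odd S h') hr

theorem dubrovin_fano_three (hT : T.FanoFacts) {X : T.Var} (hF : T.Fano X)
    (h : T.dim X ≤ 3) : T.Dubrovin X := by
  rcases Nat.lt_or_ge (T.dim X) 3 with h3 | h3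
  · rcases Nat.lt_or_ge (T.dim X) 2 with h2 | h2
    · rcases Nat.lt_or_ge (T.dim X) 1 with h1 | h1
      · exact dubrovin_point hT (by omega)
      · exact dubrovin_curve hT (by omega)
    · exact dubrovin_rational_surface hT (by omega) (hT.delpezzo X hF (by omega))
  · have h4 : T.dim X = 3 := by omega
    refine dubrovin_of hT fun h' => ?_
    have h0 := hT.tate_odd X h'
    obtain ⟨a, b⟩ := hT.fano3 X hF h4 h0
    exact ⟨(QHData.rational_three hT.toFacts h4 a).2.2 h0, b⟩

theorem dubrovin_proj (hT : T.FanoFacts) (n : ℕ) : T.Dubrovin (T.P n) :=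
  dubrovin_of hT fun _ => ⟨hT.proj n, hT.fec_proj n⟩

theorem dubrovin_quadric (hT : T.FanoFacts) (n : ℕ) : T.Dubrovin (T.Q n) :=
  dubrovin_of hT fun _ => ⟨hT.quadric_ss n, hT.quadric_fec n⟩

theorem dubrovin_generated (hT : T.FanoFacts) {X : T.Var} (h : T.Generated X) :
    T.Dubrovin X := by
  induction h with
  | fano X h hd => exact dubrovin_fano_three hT h hd
  | proj n => exact dubrovin_proj hT n
  | quadric n => exact dubrovin_quadric hT n
  | curve C h => exact dubrovin_curve hT h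
  | surface S h h' => exact dubrovin_surface hT h h'
  | prod X Y _ _ a b => exact dubrovin_prod hT a b
  | bundle X Z r h _ a => exact dubrovin_bundle hT h a
  | blow Z X X' r h _ _ a b => exact dubrovin_blow hT h a b

/-- Fano manifolds of large Lefschetz defect. -/
theorem dubrovin_defect (hT : T.FanoFacts) {X : T.Var} (hF : T.Fano X) (hd : 3 ≤ T.defect X)
    (hW : ∀ W : T.Var, T.Fano W → T.dim W + 2 = T.dim X → T.Dubrovin W) : T.Dubrovin X := by
  rcases Nat.lt_or_ge (T.defect X) 4 with h | h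
  · obtain ⟨W, Z, S₁, S₂, S₃, X₁, X₂, h1, h2, h3, h4, h5, h6, h7⟩ :=
      hT.defect_three X hF (by omega)
    have hS : ∀ S ∈ ({S₁, S₂, S₃} : Set T.Var), T.Dubrovin S := by
      intro S hS
      obtain ⟨a, b⟩ := h7 S hS
      exact hW S a (by omega)
    have hZ := dubrovin_bundle hT h3 (hW W h1 h2)
    have hX₁ := dubrovin_blow hT h4 hZ (hS S₁ (by simp))
    have hX₂ := dubrovin_blow hT h5 hX₁ (hS S₂ (by simp))
    exact dubrovin_blow hT h6 hX₂ (hS S₃ (by simp))
  · obtain ⟨S, W, rfl, h1, h2, h3, h4⟩ := hT.defect_four X hF h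
    exact dubrovin_prod hT (dubrovin_fano_three hT h1 (by omega)) (hW W h3 h4)

theorem dubrovin_defect_five (hT : T.FanoFacts) {X : T.Var} (hF : T.Fano X)
    (hd : 3 ≤ T.defect X) (h5 : T.dim X ≤ 5) : T.Dubrovin X :=
  dubrovin_defect hT hF hd fun W hW h => dubrovin_fano_three hT hW (by omega)

theorem both_blow (hT : T.FanoFacts) {Z X X' : T.Var} {r : ℕ} (h : T.Blow Z X X' r)
    (hX : T.Semisimple X ∧ T.FEC X) (hZ : T.Semisimple Z ∧ T.FEC Z) :
    T.Semisimple X' ∧ T.FEC X' := by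
  refine ⟨fun x hx => ?_, hT.fec_blow h hX.2 hZ.2⟩
  rw [hT.blow h, Multiset.mem_add] at hx
  rcases hx with hx | hx
  · exact hX.1 x hx
  · exact hZ.1 x (Multiset.mem_of_mem_nsmul hx)

theorem both_surface (hT : T.FanoFacts) {S : T.Var} (hF : T.Fano S) (h : T.dim S = 2) :
    T.Semisimple S ∧ T.FEC S :=
  ⟨QHData.rational_surface hT.toFacts h (hT.delpezzo S hF h),
    hT.fec_surface S h (hT.delpezzo S hF h)⟩

/-- Fano fourfolds of Lefschetz defect at least three. -/
theorem both_defect (hT : T.FanoFacts) {X : T.Var} (hF : T.Fano X) (hd : T.dim X = 4)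
    (h : 3 ≤ T.defect X) : T.Semisimple X ∧ T.FEC X := by
  rcases Nat.lt_or_ge (T.defect X) 4 with h | h
  · obtain ⟨W, Z, S₁, S₂, S₃, X₁, X₂, h1, h2, h3, h4, h5, h6, h7⟩ :=
      hT.defect_three X hF (by omega)
    have hS : ∀ S ∈ ({S₁, S₂, S₃} : Set T.Var), T.Semisimple S ∧ T.FEC S := by
      intro S hS
      obtain ⟨a, b⟩ := h7 S hS
      exact both_surface hT a (by omega)
    have hW := both_surface hT h1 (by omega)
    have hZ : T.Semisimple Z ∧ T.FEC Z := by
      refine ⟨fun x hx => ?_, hT.bundle_fec h3 hW.2⟩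
      rw [hT.bundle_types h3] at hx
      exact hW.1 x (Multiset.mem_of_mem_nsmul hx)
    have hX₁ := both_blow hT h4 hZ (hS S₁ (by simp))
    have hX₂ := both_blow hT h5 hX₁ (hS S₂ (by simp))
    exact both_blow hT h6 hX₂ (hS S₃ (by simp))
  · obtain ⟨S, W, rfl, h1, h2, h3, h4⟩ := hT.defect_four X hF h
    have a := both_surface hT h1 h2
    have b := both_surface hT h3 (by omega)
    exact ⟨hT.prod_ss _ _ a.1 b.1, hT.prod_fec _ _ a.2 b.2⟩

/-- Fano manifolds which are blow-ups in a point. -/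
theorem dubrovin_point_blow (hT : T.FanoFacts) {Z X Y : T.Var} (hF : T.Fano X)
    (hZ : T.dim Z = 0) (h : T.Blow Z Y X (T.dim X)) : T.Dubrovin X := by
  rcases Nat.lt_or_ge 3 (T.dim X + 1) with h3 | h3
  · refine dubrovin_blow hT h ?_ (dubrovin_point hT hZ)
    rcases hT.point_blow hF (by omega) hZ h with rfl | rfl | ⟨A, d, hA, hb⟩
    · exact dubrovin_proj hT _
    · exact dubrovin_quadric hT _
    · refine dubrovin_blow hT hb (dubrovin_proj hT _) (dubrovin_of hT fun h' => ?_)
      have hA' : T.Dubrovin A := by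
        rcases hT.hyper hA (by omega) h' with rfl | rfl | ⟨a, b⟩
        · exact dubrovin_proj hT _
        · exact dubrovin_quadric hT _
        · exact dubrovin_rational_surface hT a b
      exact hA'.both h'
  · exact dubrovin_fano_three hT hF (by omega)

/-- Fano fourfolds with a prime divisor of Picard number one. -/
theorem dubrovin_prime_one (hT : T.FanoFacts) {X : T.Var} (hF : T.Fano X) (hd : T.dim X = 4)
    (h1 : T.PrimeOne X) (h2 : 3 ≤ T.rho X) : T.Dubrovin X := by
  obtain ⟨Y, Z, A, a, b, c, d, e, f⟩ := hT.prime_one X hF hd h1 h2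
  have hA : T.Dubrovin A := by
    rcases f with f | f
    · exact dubrovin_fano_three hT f (by omega)
    · exact dubrovin_surface hT e (Or.inr (Or.inl f.ne'))
  exact dubrovin_blow hT d (dubrovin_bundle hT c (dubrovin_fano_three hT a (by omega))) hA

end FanoData

end Pool.Agent.Q8.DU
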